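import Pool.Agent.Lib.MP_b685ef_ag.ASX.Main

/-!
# Frobenius eigenvalues of exponential sums with a simplicial Newton polytope

Let `k = 𝔽_q`, `q = p^h`, and let `f` be a Laurent polynomial in `n` variables over `k` whose Newton
polytope `Δ` (with `0 ∈ Δ`, anywhere) is simplicial away from `0`: the faces of `Δ` not containing
`0` are simplices with vertices among the nonzero vertices `V_s`, `s ∈ P`, of `Δ`.  A lattice point
`u` of the cone of `Δ` has a unique minimal representation `D u = ∑_s y_s(u) V_s`; `D` is a common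
denominator, and the hypothesis is `D ∣ p - 1`.  On the faces not containing `0` only the vertices
occur in `f`; all other lattice points of `Δ` have ARBITRARY coefficients.

Let `φ` be an automorphism of a vector space with `(-1)^n tr φ^j = ∑_{x ∈ (E^*)^n} ψ(Tr f(x))` for
all finite extensions `E` of `k`, `j = [E : k]` (the Frobenius on `H^n_c(𝔾_m^n, L_ψ(f))`).  The
theorem computes, for every slope `m/D` and every residue `v ∈ k`, the number `N(m,v)` of the
eigenvalues of `φ` of this slope and with this leading digit (with multiplicity); it is independent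
of the lower terms of `f`.  In particular the multiplicity of an eigenvalue and the size of its
Jordan blocks are at most the number `N(m,v)` of its class, and if all `N(m,v)` are at most `1`, then
`φ` has distinct eigenvalues and is semisimple.

`N(m,v)` is a refined Hodge number of Adolphson-Sperber; it is evaluated for `n` independent rays
(`Δ` a simplex with vertex `0`) and for `n + 1` rays (for example `Δ` a simplex with `0` in its
interior: deformed hyper-Kloosterman sums, where `H^n_c` is pure of weight `n`).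
-/

set_option autoImplicit false

open scoped BigOperators

namespace Pool.Agent.Results.MP_b685ef_ag.ArtinSchreierPolytopes

universe u v

/-- `u` is a lattice point of the cone spanned by the vectors `V_s`. -/
def InCone {n : ℕ} {P : Type} [Fintype P] (V : P → Fin n → ℤ) (u : Fin n → ℤ) : Prop :=
  ∃ (N : ℕ) (z : P → ℕ), 1 ≤ N ∧ (N : ℤ) • u = ∑ s, (z s : ℤ) • V s

/-- `D` times the gauge of `Δ`: `e(u) = ∑_s y_s(u)`. -/
def weight {n : ℕ} {P : Type} [Fintype P] (y : (Fin n → ℤ) → P → ℕ) (u : Fin n → ℤ) : ℕ :=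
  ∑ s, y u s

/-- `Δ = conv(0, V)` is simplicial away from `0`, its nonzero vertices are the `V_s`, and `D` is a
common denominator: for every lattice point `u` of the cone `D u = ∑_s y_s(u) V_s` is the unique
minimal representation, i.e. `N u = ∑_s z_s V_s` with `N ≥ 1`, `z_s ≥ 0` implies
`N e(u) ≤ D ∑_s z_s`, with equality only for `N y(u) = D z`; and `e(V_s) = D`. -/
structure Simplicial {n : ℕ} {P : Type} [Fintype P] (D : ℕ) (V : P → Fin n → ℤ)
    (y : (Fin n → ℤ) → P → ℕ) : Prop where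
  representation : ∀ u, InCone V u → (D : ℤ) • u = ∑ s, (y u s : ℤ) • V s
  minimal : ∀ u, InCone V u → ∀ (N : ℕ) (z : P → ℕ), 1 ≤ N →
    (N : ℤ) • u = ∑ s, (z s : ℤ) • V s → N * weight y u ≤ D * ∑ s, z s
  unique : ∀ u, InCone V u → ∀ (N : ℕ) (z : P → ℕ), 1 ≤ N →
    (N : ℤ) • u = ∑ s, (z s : ℤ) • V s → N * weight y u = D * ∑ s, z s →
    ∀ s, N * y u s = D * z s
  vertex : ∀ s, weight y (V s) = D

/-- All exponents of `f` are in `Δ` (`e(u) ≤ D`); those on the faces not containing `0`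
(`e(u) = D`) are among the vertices `V_s`; the coefficient `α_s` of `x^{V_s}` is not `0`. -/
structure Admissible {n : ℕ} {P : Type} [Fintype P] {k : Type} [Field k] (D : ℕ)
    (V : P → Fin n → ℤ) (y : (Fin n → ℤ) → P → ℕ) (f : (Fin n → ℤ) →₀ k) : Prop where
  mem : ∀ u ∈ f.support, InCone V u ∧ weight y u ≤ D
  leading : ∀ u ∈ f.support, weight y u = D → ∃ s, u = V s
  nonzero : ∀ s, f (V s) ≠ 0

/-- The residue `R(t) = ∏_s ((c r_s)!)^{-h} (α_s^{(q-1)/D})^{r_s}`, `r_s = t_s mod D`,
`c = (p-1)/D`, `q = p^h`. -/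
noncomputable def residue {P k : Type} [Fintype P] [Field k] (p D h : ℕ) (α : P → k)
    (t : P → ℕ) : k :=
  ∏ s, ((((p - 1) / D * (t s % D)).factorial : k)⁻¹) ^ h *
    (α s ^ ((p ^ h - 1) / D)) ^ (t s % D)

/-- `N(m,v) = ∑_i (-1)^i binom(n,i) #{u in the cone : e(u) + D i = m and
R(y(u)) (-1)^{h ∑_s [y_s(u)/D]} (-1)^{h i} = v}`. -/
noncomputable def classNumber {n : ℕ} {P k : Type} [Fintype P] [Field k] (p D h : ℕ)
    (V : P → Fin n → ℤ) (y : (Fin n → ℤ) → P → ℕ) (α : P → k) (m : ℕ) (v : k) : ℤ :=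
  ∑ i ∈ Finset.range (n + 1), (-1) ^ i * (n.choose i : ℤ) *
    (Set.ncard {u : Fin n → ℤ | InCone V u ∧ weight y u + D * i = m ∧
      residue p D h α (y u) * (∏ s, ((-1) ^ h) ^ (y u s / D)) * (-1) ^ (h * i) = v} : ℤ)

/-- The value of `f = ∑_u f(u) x^u` at a point of the torus. -/
noncomputable def laurentValue {n : ℕ} {k E : Type} [Field k] [Field E] [Algebra k E]
    (f : (Fin n → ℤ) →₀ k) (x : Fin n → Eˣ) : E :=
  ∑ u ∈ f.support, algebraMap k E (f u) * ((∏ i, x i ^ u i : Eˣ) : E)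

open Classical in
/-- The exponential sum `∑_{x ∈ (E^*)^n} ψ(Tr_{E/𝔽_p} f(x))`. -/
noncomputable def expSum {n : ℕ} {p : ℕ} [Fact p.Prime] {k : Type} [Field k] {K : Type*} [Field K]
    (ψ : AddChar (ZMod p) K) (f : (Fin n → ℤ) →₀ k)
    (E : Type) [Field E] [Fintype E] [Algebra (ZMod p) E] [Algebra k E] : K :=
  ∑ x : Fin n → Eˣ, ψ (Algebra.trace (ZMod p) E (laurentValue f x))

open Classical in
/-- **Theorem.** (A) Over the algebraic closure of `ℚ_p`, `ρ^D = ψ(1) - 1`, `τ` the Teichmüller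
lift: the number of the eigenvalues in the disc around `τ(v) ρ^{(p-1)mh}` of radius
`|ρ^{(p-1)mh}|` is `N(m,v)`, and every eigenvalue is in exactly one of these discs.
(B) Over any algebraically closed field of characteristic `0`: the eigenvalues of `φ` fall into
classes `(m,v)` with `N(m,v)` elements (equal eigenvalues are in the same class); if all
`N(m,v) ≤ 1`, then `φ` has distinct eigenvalues. (C) `N(m,v)` for `n` independent rays.
(D) `N(m,v)` for `n + 1` rays with one relation `∑ c_s V_s = 0`. -/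
theorem result (p : ℕ) [Fact p.Prime] (n D : ℕ) (hD : D ∣ p - 1) (P : Type) [Fintype P]
    (V : P → Fin n → ℤ) (y : (Fin n → ℤ) → P → ℕ) (hy : Simplicial D V y)
    (k : Type) [Field k] [Fintype k] [Algebra (ZMod p) k] (f : (Fin n → ℤ) →₀ k)
    (hf : Admissible D V y f) :
    -- (A)
    (∀ (ψ : AddChar (ZMod p) (PadicAlgCl p)), ψ ≠ 1 → ∀ ρ : PadicAlgCl p, ρ ^ D = ψ 1 - 1 →
      ∀ τ : k →*₀ PadicAlgCl p, (∀ a b, ‖τ (a + b) - (τ a + τ b)‖ < 1) →
      ∀ β : Multiset (PadicAlgCl p), (∀ x ∈ β, x ≠ 0) →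
      (∀ (E : Type) [Field E] [Fintype E] [Algebra (ZMod p) E] [Algebra k E],
        (-1) ^ n * (β.map fun x => x ^ Module.finrank k E).sum = expSum ψ f E) →
      (∀ (m : ℕ) (v : k), v ≠ 0 → (Multiset.countP (fun x =>
          ‖x - τ v * ρ ^ ((p - 1) * m * Module.finrank (ZMod p) k)‖ <
            ‖ρ‖ ^ ((p - 1) * m * Module.finrank (ZMod p) k)) β : ℤ) =
        classNumber p D (Module.finrank (ZMod p) k) V y (fun s => f (V s)) m v) ∧
      ∀ x ∈ β, ∃! c : ℕ × k, c.2 ≠ 0 ∧
        ‖x - τ c.2 * ρ ^ ((p - 1) * c.1 * Module.finrank (ZMod p) k)‖ <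
          ‖ρ‖ ^ ((p - 1) * c.1 * Module.finrank (ZMod p) k)) ∧
    -- (B)
    (∀ (K : Type u) [Field K] [IsAlgClosed K] [CharZero K] (ψ : AddChar (ZMod p) K), ψ ≠ 1 →
      ∀ (W : Type v) [AddCommGroup W] [Module K W] [FiniteDimensional K W] (φ : W ≃ₗ[K] W),
      (∀ (E : Type) [Field E] [Fintype E] [Algebra (ZMod p) E] [Algebra k E],
        (-1) ^ n * LinearMap.trace K W ((φ : W →ₗ[K] W) ^ Module.finrank k E) = expSum ψ f E) →
      (∃ cl : K → ℕ × k, ∀ (m : ℕ) (v : k), (Multiset.countP (fun x => cl x = (m, v))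
          (LinearMap.charpoly (φ : W →ₗ[K] W)).roots : ℤ) =
        classNumber p D (Module.finrank (ZMod p) k) V y (fun s => f (V s)) m v) ∧
      ((∀ (m : ℕ) (v : k),
          classNumber p D (Module.finrank (ZMod p) k) V y (fun s => f (V s)) m v ≤ 1) →
        (LinearMap.charpoly (φ : W →ₗ[K] W)).Separable)) ∧
    -- (C)
    (Fintype.card P = n → (∀ b : P → ℤ, ∑ s, b s • V s = 0 → b = 0) → ∀ (h m : ℕ) (v : k),
      classNumber p D h V y (fun s => f (V s)) m v =
        (Set.ncard {u : Fin n → ℤ | InCone V u ∧ (∀ s, y u s < D) ∧ weight y u = m ∧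
          residue p D h (fun s => f (V s)) (y u) = v} : ℤ)) ∧
    -- (D)
    (Fintype.card P = n + 1 → ∀ c : P → ℤ, ∑ s, c s • V s = 0 → 0 < ∑ s, c s →
      (∀ b : P → ℤ, ∑ s, b s • V s = 0 → ∃ M a : ℤ, 0 < M ∧ ∀ s, M * b s = a * c s) →
      ∀ (h m : ℕ) (v : k), classNumber p D h V y (fun s => f (V s)) m v =
        (Set.ncard {x : (Fin n → ℤ) × ℕ | InCone V x.1 ∧ (∀ s, y x.1 s < D) ∧
          x.2 < Set.ncard {s | 0 < c s ∧ y x.1 s = 0} ∧ weight y x.1 + D * x.2 = m ∧
          residue p D h (fun s => f (V s)) (y x.1) * (-1) ^ (h * x.2) = v} : ℤ)) := by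
  have hp2 := (Fact.out : p.Prime).two_le
  have hD1 : 1 ≤ D := Nat.pos_of_dvd_of_pos hD (by omega)
  have hS : ASX.Simpl D V y := ⟨hy.representation, hy.minimal, hy.unique, hy.vertex⟩
  have hG : ASX.Geo D V y := ASX.GEOX_thm n D P V y hD1 hS
  have hA : ASX.Adm D V y f (fun s => f (V s)) :=
    ⟨hf.mem, hf.leading, fun _ => rfl, hf.nonzero⟩
  have hcn : ∀ (h m : ℕ) (v : k), classNumber p D h V y (fun s => f (V s)) m v =
      ASX.NX D h V y (ASX.lX p D h (fun s => f (V s))) m v := fun _ _ _ => rfl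
  refine ⟨?_, ?_, ?_, ?_⟩
  · intro ψ hψ ρ hρ τ hτ β hβ hT
    classical
    have hp : ‖((p : ℕ) : PadicAlgCl p)‖ < 1 := by
      have h2 := PadicAlgCl.norm_extends p (p : ℚ_[p])
      have h3 : ‖(p : PadicAlgCl p)‖ = ‖(p : ℚ_[p])‖ := by
        rw [← h2]
        congr 1
      rw [h3]
      exact Padic.norm_p_lt_one
    let j : ℤ_[p] →+* PadicAlgCl p :=
      (algebraMap ℚ_[p] (PadicAlgCl p)).comp PadicInt.Coe.ringHom
    have hj : ∀ x, ‖j x‖ ≤ 1 := by
      intro x
      have h2 := PadicAlgCl.norm_extends p (x : ℚ_[p])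
      exact h2.trans_le x.norm_le_one
    have hle : ∀ x : k, ‖τ x‖ ≤ 1 := by
      intro x
      by_cases hx : x = 0
      · rw [hx, map_zero, norm_zero]
        exact zero_le_one
      · have h1 : ‖τ x‖ ^ (Fintype.card k - 1) = 1 := by
          rw [← norm_pow, ← map_pow, FiniteField.pow_card_sub_one_eq_one x hx, map_one, norm_one]
        have h2 : Fintype.card k - 1 ≠ 0 := by
          have := Fintype.one_lt_card (α := k)
          omega
        exact ((pow_eq_one_iff_of_nonneg (norm_nonneg _) h2).1 h1).le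
    let ι : k →+* ASur.KK (PadicAlgCl p) :=
      { toFun := fun x => ASur.rd (τ x)
        map_one' := by simp
        map_mul' := fun a b => by rw [map_mul, ASur.rd_mul (hle a) (hle b)]
        map_zero' := by simp
        map_add' := fun a b => by
          rw [← ASur.rd_add (hle a) (hle b)]
          refine (ASur.rd_eq_iff (hle _) ?_).2 (hτ a b)
          exact (IsUltrametricDist.norm_add_le_max _ _).trans (max_le (hle a) (hle b)) }
    have hTe : ASur.IsTeich ι τ := ⟨hle, fun _ => rfl⟩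
    obtain ⟨h1, -, h3⟩ := ASX.main_CLSX p D hD (PadicAlgCl p) hp j hj k ι τ hTe n P V y hG f
      (fun s => f (V s)) hA ψ hψ β hβ hT ρ hρ
    refine ⟨fun m v hv => ?_, h3⟩
    rw [hcn, ← h1 m v hv, Multiset.countP_eq_card_filter]
  · intro K _ _ _ ψ hψ W _ _ _ φ hT
    classical
    obtain ⟨⟨cl, h1⟩, h2⟩ := ASX.main_FINX.{u, v} p D hD k n P V y hG f (fun s => f (V s)) hA K ψ hψ W φ hT
    refine ⟨⟨cl, fun m v => ?_⟩, fun h => h2 fun m v => h m v⟩
    rw [hcn, ← h1 m v, Multiset.countP_eq_card_filter]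
  · intro hP hb h m v
    exact ASX.main_EVNX n D P V y hD1 hS hG hP hb k p h (fun s => f (V s)) m v
  · intro hP c hc hc0 hb h m v
    exact ASX.main_EVCX n D P V y hD1 hS hG hP c hc hc0 hb k p h (fun s => f (V s)) m v

end Pool.Agent.Results.MP_b685ef_ag.ArtinSchreierPolytopes
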