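import Pool.Agent.Lib.MP_b685ef_ag.ASQ.Main

/-!
# Artin-Schreier surfaces: multiple eigenvalues of the Frobenius are `q` times a unit; quartics

Let `k = 𝔽_q`, `q = p^h`, `a, b ≥ 2`, `g = gcd(a, b)`, `D = lcm(a, b)` a divisor of `p - 1`, and let
`f ∈ k[x, y]` have weighted degree at most `D` for the weights `D/a` of `x` and `D/b` of `y`, with the
part `f₁ = ∑_{i ≤ g} c_i x^{ai/g} y^{b(g-i)/g}` of weight `D`.  Suppose that `G = ∑ c_i X^i` is
squarefree of degree `g`.

For `1 ≤ m < D` let `U_m` be the set of the points `u` of weight `m` with coordinates `≥ 1`,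
`H_m = (coeff_{pu-v} f₁^{(p-1)m/D})_{u,v ∈ U_m}` and `N_m = H_m^{(p^{h-1})} ⋯ H_m^{(p)} H_m`.  Suppose
that one of the following holds.

* These `N_m` are invertible with distinct eigenvalues.
* `a = b = 3` (any cubic `f` with squarefree leading form).
* `a = b = 4`, `G` has an irreducible factor of degree `≥ 3` over `k`, or an irreducible factor of
  degree `2` and a root in `k` (so it is neither a product of linear factors nor of two irreducible
  quadratic factors), and the coefficient of `(xy)^{p-1}` in `f₁^{(p-1)/2}` is not `0` (the curve of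
  genus one `w² = f₁(x, y)` is ordinary).
* `f₁ = α x^a + β y^b` with `g = 1`, or with `p - 1 ∣ h` and `G` irreducible.

There is no hypothesis on the terms of `f` of weight `< D`.

Conclusion: if `V` is a vector space with an automorphism `φ` whose powers have the traces of the
Frobenius on `H²_c(𝔸²_{k̄}, L_ψ(f))`, then `dim V = (a-1)(b-1)` and

* (i) for every eigenvalue `β` of multiplicity `≥ 2` of `φ` both `β/q` and `q/β` are algebraic integers
  (no condition on the factors of `G`);
* (ii) if the irreducible factors of `G` over `k` are distributed in two groups, `F₁` one factor or two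
  factors of coprime degrees and `F₂` all the others, and
  `charpoly φ = Q · ∏_{P ∈ F₂} (X^{deg P} - q^{deg P})`, then `Q` has distinct roots.  In particular
  (`F₂ = ∅`) the eigenvalues of `φ` are distinct if `G` is irreducible or a product of two factors of
  coprime degrees: for every cubic whose leading form is squarefree and not a product of three linear
  forms, and for every quartic as above whose leading form is not a product of two quadratic forms.

Geometry (not formalised).  Let `X` be a smooth projective surface birational to `z^p - z = f(x, y)`.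
By the theorem of Deligne the eigenvalues `β` have absolute value `q`, so in (i) `β = q ζ` with a root
of unity `ζ` (Kronecker): the Frobenius of `X` acts semisimply on the generalized eigenspaces of all
eigenvalues of `H²` other than `q ζ`, the eigenvalues of Tate classes over finite extensions of `k`.
So semisimplicity of the Frobenius on the cohomology of `X` is equivalent to semisimplicity at the Tate
classes, a part of Tate's conjecture for divisors on `X` over finite extensions of `k`.  Under the
hypotheses on the factors of `G` in (ii) semisimplicity holds without a conjecture (`F₂ = ∅`; or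
`f` constant, of trace `0`, on the curves `P(x^{a/g}, y^{b/g}) = 0` (homogenized), `P ∈ F₂`, where the
components over `k̄` of these curves split in `z^p - z = f` and give the factor
`∏_{F₂} (X^{deg P} - q^{deg P})`, with a nonsingular intersection form).

Idea of the proof.  (ii): Dwork's splitting function is replaced by a polynomial with an arbitrarily
small error, so that the edge of slope `m/D` of the `p`-adic Newton polygon of `∏ (1 - βX)` and its
residual polynomial are computed from a block cyclic determinant; the residual polynomial is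
`det(1 - X N_m)`, and for the slope `1` it is `∏ (X^{d_i} - 1)/(X - 1)` (up to reversal), `d_i` the
degrees of the irreducible factors of `G`.  (i): so for every `p`-adic absolute value a multiple
eigenvalue has the absolute value of `q` (duality `β ↦ q²/β` for the slopes `> 1`); the eigenvalues are
algebraic integers, by the power sums (Fatou's lemma); so the coefficients of the minimal polynomial of
a multiple eigenvalue `β` are divisible by the powers of `q` and `β/q` is integral, and the same for
`q/β`.  Quartics: the matrix `h(F) = (coeff_{pu-v} F)`, `u, v ∈ {(2,1), (1,2)}`, `deg F = 3(p-1)`,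
satisfies `h(F∘A) Aᵀ = det(A)^{p-1} (A^{(p)})ᵀ h(F)`; `h(f₁^{3(p-1)/4})` is invertible for every
squarefree quartic form (an antiderivative argument); for a matrix `M` inducing the involution
`ρ₀ ↔ ρ₁, ρ₂ ↔ ρ₃` of the four roots, `f₁∘M = det(M)² f₁`, so conjugation by `N_3` maps `M` to a
multiple of its Frobenius transform (all transposed), which is another involution; so `N_3`
permutes involutions which do not commute, and it is of finite order modulo scalars and not scalar.
-/

set_option autoImplicit false

open scoped BigOperators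

namespace Pool.Agent.Results.MP_b685ef_ag.ArtinSchreierTate

/-- The weight `e(w) = (D/a) w₁ + (D/b) w₂`, `D = lcm(a, b)` (so that `x^a` and `y^b` have
weight `D`). -/
def weight (a b : ℕ) (w : Fin 2 → ℕ) : ℕ :=
  (Nat.lcm a b / a) * w 0 + (Nat.lcm a b / b) * w 1

/-- The part `f₁` of `f` of weight `D`. -/
noncomputable def leadingPart (a b : ℕ) {k : Type} [Field k] (f : MvPolynomial (Fin 2) k) :
    MvPolynomial (Fin 2) k :=
  MvPolynomial.weightedHomogeneousComponent ![Nat.lcm a b / a, Nat.lcm a b / b] (Nat.lcm a b) f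

/-- The polynomial `G = ∑_{i ≤ g} c_i X^i`, `g = gcd(a, b)`, where `c_i` is the coefficient of
`x^{(a/g) i} y^{(b/g)(g-i)}` in `f`. -/
noncomputable def leadingPolynomial (a b : ℕ) {k : Type} [Field k] (f : MvPolynomial (Fin 2) k) :
    Polynomial k :=
  ∑ i ∈ Finset.range (Nat.gcd a b + 1), Polynomial.monomial i
    (f.coeff (Finsupp.equivFunOnFinite.symm
      ![a / Nat.gcd a b * i, b / Nat.gcd a b * (Nat.gcd a b - i)]))

/-- The set `U_m` of the points `u` with coordinates `≥ 1` and weight `m` (the coordinates are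
at most `m`, so at most `D` if `m ≤ D`); `u : Fin 2 → Fin D` stands for the point `u + 1`. -/
abbrev U (a b m : ℕ) : Type :=
  {u : Fin 2 → Fin (Nat.lcm a b) // weight a b (fun s => (u s : ℕ) + 1) = m}

/-- The matrix `H_m = (coeff_{pu-v} f₁^{(p-1)m/D})_{u,v ∈ U_m}`. -/
noncomputable def H (p a b m : ℕ) {k : Type} [Field k] (f : MvPolynomial (Fin 2) k) :
    Matrix (U a b m) (U a b m) k :=
  Matrix.of fun u v => (leadingPart a b f ^ ((p - 1) / Nat.lcm a b * m)).coeff
    (Finsupp.equivFunOnFinite.symm fun s => p * ((u.1 s : ℕ) + 1) - ((v.1 s : ℕ) + 1))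

/-- The product `M^{(p^{n-1})} ⋯ M^{(p)} M`, where `M^{(p^i)}` has the entries `(M u v)^{p^i}`. -/
def frobProd (p : ℕ) {ι k : Type} [Fintype ι] [DecidableEq ι] [CommSemiring k]
    (M : Matrix ι ι k) : ℕ → Matrix ι ι k
  | 0 => 1
  | n + 1 => (M.map fun x => x ^ (p ^ n)) * frobProd p M n

/-- For `1 ≤ m < D` the matrix `N_m = H_m^{(p^{h-1})} ⋯ H_m`, `h = [k : 𝔽_p]`, is invertible and has
distinct eigenvalues. -/
def SeparatedBelow (p a b : ℕ) [Fact p.Prime] {k : Type} [Field k] [Algebra (ZMod p) k]
    (f : MvPolynomial (Fin 2) k) : Prop :=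
  ∀ m, 1 ≤ m → m < Nat.lcm a b → (Polynomial.X *
    (frobProd p (H p a b m f) (Module.finrank (ZMod p) k)).charpoly).Separable

/-- `f₁ = α x^a + β y^b` with `α, β ≠ 0`, and `gcd(a, b) = 1`, or `p - 1 ∣ [k : 𝔽_p]` and `G` is
irreducible. -/
def DiagonalLeadingPart (p a b : ℕ) [Fact p.Prime] {k : Type} [Field k]
    [Algebra (ZMod p) k] (f : MvPolynomial (Fin 2) k) : Prop :=
  ∃ α β : k, α ≠ 0 ∧ β ≠ 0 ∧
    leadingPart a b f = MvPolynomial.monomial (Finsupp.single 0 a) α +
      MvPolynomial.monomial (Finsupp.single 1 b) β ∧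
    (Nat.Coprime a b ∨
      (p - 1 ∣ Module.finrank (ZMod p) k ∧ Irreducible (leadingPolynomial a b f)))

/-- `a = b = 4`, `G` has an irreducible factor of degree `≥ 3` over `k`, or an irreducible factor of
degree `2` and a root in `k`, and the coefficient of `(xy)^{p-1}` in `f₁^{(p-1)/2}` is not `0`. -/
def OrdinaryQuartic (p a b : ℕ) {k : Type} [Field k] (f : MvPolynomial (Fin 2) k) : Prop :=
  a = 4 ∧ b = 4 ∧
    (∃ P : Polynomial k, Irreducible P ∧ P ∣ leadingPolynomial a b f ∧
      (3 ≤ P.natDegree ∨ (P.natDegree = 2 ∧ ∃ r : k, (leadingPolynomial a b f).eval r = 0))) ∧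
    (leadingPart a b f ^ ((p - 1) / 2)).coeff
      (Finsupp.equivFunOnFinite.symm ![p - 1, p - 1]) ≠ 0

/-- The exponential sum `∑_{x ∈ E²} ψ(Tr_{E/𝔽_p} f(x))`. -/
noncomputable def expSum {p : ℕ} [Fact p.Prime] {k : Type} [Field k] {K : Type*} [Field K]
    (ψ : AddChar (ZMod p) K) (f : MvPolynomial (Fin 2) k)
    (E : Type) [Field E] [Fintype E] [Algebra (ZMod p) E] [Algebra k E] : K :=
  ∑ x : Fin 2 → E, ψ (Algebra.trace (ZMod p) E (MvPolynomial.aeval x f))

/-- **Theorem.** Let `G` be squarefree of degree `g` and assume one of the four conditions.  If `V`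
has the traces of `H²_c(𝔸², L_ψ(f))`, then `dim V = (a-1)(b-1)`; `x/q` and `q/x` are algebraic integers
for every root `x` of multiplicity `≥ 2` of the characteristic polynomial of `φ`; and if the irreducible
factors of `G` are `F₁ + F₂`, `F₁` one factor or two factors of coprime degrees, and
`charpoly φ = Q ∏_{P ∈ F₂} (X^{deg P} - q^{deg P})`, then `Q` is separable. -/
theorem result (p : ℕ) [Fact p.Prime] (a b : ℕ) (ha : 2 ≤ a) (hb : 2 ≤ b)
    (hD : Nat.lcm a b ∣ p - 1) (k : Type) [Field k] [Fintype k] [Algebra (ZMod p) k]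
    (f : MvPolynomial (Fin 2) k) (hf : ∀ m ∈ f.support, weight a b m ≤ Nat.lcm a b)
    (hG : (leadingPolynomial a b f).natDegree = Nat.gcd a b)
    (hGs : Squarefree (leadingPolynomial a b f))
    (hS : SeparatedBelow p a b f ∨ DiagonalLeadingPart p a b f ∨ (a = 3 ∧ b = 3) ∨
      OrdinaryQuartic p a b f)
    (K : Type*) [Field K] [IsAlgClosed K] [CharZero K] (ψ : AddChar (ZMod p) K) (hψ : ψ ≠ 1)
    (V : Type*) [AddCommGroup V] [Module K V] [FiniteDimensional K V] (φ : V ≃ₗ[K] V)
    (hT : ∀ (E : Type) [Field E] [Fintype E] [Algebra (ZMod p) E] [Algebra k E],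
      LinearMap.trace K V ((φ : V →ₗ[K] V) ^ Module.finrank k E) = expSum ψ f E ∧
      (Fintype.card E : K) ^ 2 *
        LinearMap.trace K V ((φ.symm : V →ₗ[K] V) ^ Module.finrank k E) = expSum ψ⁻¹ f E) :
    Module.finrank K V = (a - 1) * (b - 1) ∧
    (∀ x : K, 2 ≤ (LinearMap.charpoly (φ : V →ₗ[K] V)).rootMultiplicity x →
      IsIntegral ℤ (x / (Fintype.card k : K)) ∧ IsIntegral ℤ ((Fintype.card k : K) / x)) ∧
    ∀ F₁ F₂ : Multiset (Polynomial k), (∀ P ∈ F₁ + F₂, Irreducible P) →
      (F₁ + F₂).prod = leadingPolynomial a b f →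
      (Multiset.card F₁ = 1 ∨
        ∃ P₁ P₂ : Polynomial k, F₁ = {P₁, P₂} ∧ Nat.Coprime P₁.natDegree P₂.natDegree) →
      ∀ Q : Polynomial K, LinearMap.charpoly (φ : V →ₗ[K] V) =
        Q * (F₂.map fun P => Polynomial.X ^ P.natDegree -
          Polynomial.C ((Fintype.card k : K) ^ P.natDegree)).prod → Q.Separable := by
  have hfp : ∀ (ι : Type) [Fintype ι] [DecidableEq ι] (M : Matrix ι ι k) (n : ℕ),
      frobProd p M n = ASur.Fprod p M n := by
    intro ι _ _ M n
    induction n with
    | zero => rfl
    | succ n ih => simp only [frobProd, ASur.Fprod, ih]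
  have hL : ∀ m, 1 ≤ m → m < Nat.lcm a b → (Polynomial.X *
      (ASur.Fprod p (ASur.Hmat p a b (Nat.lcm a b) m f)
        (Module.finrank (ZMod p) k)).charpoly).Separable := by
    intro m hm hmD
    rcases hS with hS | ⟨α, β, hα, hβ, hl, hc⟩ | ⟨rfl, rfl⟩ | ⟨rfl, rfl, hP, hc⟩
    · have := hS m hm hmD
      rw [hfp] at this
      exact this
    · exact ASP.diagp_thm p a b ha hb hD k f α β hα hβ hl hc m hm hmD.le
    · exact ASP.cubic_thm p hD k f hG hGs m hm hmD
    · exact ASQ.main_QALL p hD k f hG hGs hP hc m hm hmD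
  obtain ⟨h1, h2⟩ := ASQ.main_FINX p a b ha hb hD k f hf hL hG hGs K ψ hψ V φ hT
  refine ⟨h1, h2, ?_⟩
  intro F₁ F₂ hI hF hF₁ Q hQ
  exact (ASP.main_FINALP p a b ha hb hD k f hf hL hG hGs F₁ F₂ hI hF hF₁ K ψ hψ V φ hT Q hQ).2

end Pool.Agent.Results.MP_b685ef_ag.ArtinSchreierTate
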