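import Pool.Agent.Lib.MP_b685ef_ag.TR.TR4

/-!
# MP_b685ef_ag: Frobenius semisimplicity at every member, by geometric transfer

Setting (abstract form of a family of varieties over a finite field `𝔽_q`).  `S` is a normal
connected scheme of finite type over `𝔽_q`, `G` is its Weil group (the elements of `π_1(S)` which
act on the algebraic closure of `𝔽_q` by an integral power of Frobenius), `d : G → ℤ` is the degree
(`dg d g` is `d g` as an integer), `d.ker` is the geometric fundamental group and `V` is the stalk
of a lisse sheaf which is semisimple on the geometric fundamental group, for instance of
`R^i f_* \overline{ℚ}_ℓ`, `f : X → S` smooth and proper (Deligne).  The Frobenius element `Fr x` of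
a closed point `x` has degree `± deg x ≠ 0` and acts on `V` as the Frobenius of the member `X_x` on
`H^i`.  Nothing about the elements `Fr x` is assumed: the theorem is about every `g` in `G`.

Definitions.
* `Stab ρ X W`: `W` is stable under the `ρ c`, `c ∈ X`; `SSOn ρ X`: every such `W` has such a
  complement (`ZO/Defs.lean`).
* `Irr ρ X S`: `S` is a nonzero subspace stable under `X` without smaller ones; `Occurs ρ τ X S`:
  some linear map `f : V → T` is not zero on `S` and `f (ρ c v) = τ c (f v)` for `c ∈ X`, `v ∈ S`
  (`TR1.lean`).
* `tw ρ d w hw` is the representation `g ↦ ρ g * w ^ (- d g)` (`TR2.lean`).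
* `AdSS ρ G0 g`: conjugation by `ρ g` is semisimple on the span of the `ρ c`, `c ∈ G0`: every
  subspace of this span stable under `x ↦ ρ g * x * ρ g⁻¹` has a complement in the span with the
  same property (`TR3.lean`).
* `MultFree ρ X`: every map from an irreducible `S` to `V` which commutes with `X` has its image
  in `S`, that is, no constituent on `X` occurs twice (`TR4.lean`).

The theorem.  There is one unipotent `w`, commuting with the whole of `G`, such that the twist
`V' = tw ρ d w hw` is semisimple; `w = 1` if and only if `V` is semisimple over `G`, for instance if
`V` is multiplicity free on `d.ker`; for every `g` of degree `≠ 0`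
* `V'(g)` is semisimple if and only if conjugation by `g` is semisimple on the algebra generated by
  the geometric monodromy, and then the nilpotent part of `V(g)` and its powers have the ranks of
  `(w - 1) ^ j`, and `w` is determined by `V(g)` alone (if the degree is positive);
* `V(g)` is semisimple if and only if `w = 1` and conjugation by `g` is semisimple on this algebra.
Transfer: if all irreducible constituents of `V` on `d.ker` occur in a representation `T` of `G`,
then `V'(g)` is semisimple for every `g` in `G` such that `T(g)` is semisimple.

So Q1 at a member splits in a condition on the whole sheaf and a condition on the geometric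
monodromy, and the second one is inherited from any `T` which contains the geometric constituents.
If `T` is semisimple at all closed points (`H^1` of abelian schemes and all sheaves obtained from it
by tensor operations and finite covers, by Weil; sheaves of rank two, by Drinfeld; Kloosterman
sheaves, whose Frobenius eigenvalues have different slopes, by Sperber), then `V(Fr x) = s w^deg x`
with `s` semisimple for EVERY closed point `x`: either all members satisfy Q1 in degree `i` or none
does, and all do if `R^i f_*` is semisimple over `G`, for instance if one member is good or if the
constituents on the geometric fundamental group are different.  The sheaf `T` need not be related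
to `V` over `𝔽_q`, only geometrically.

Proof.  Let `u` be the unipotent part of `V(g)`.  Relations between the pairs `(T(c), V(c))`,
`c ∈ d.ker`, whose first component is zero, have second component zero, because every irreducible
constituent of `V` occurs in `T`; this graph is stable under conjugation by `g`, so that the minimal
polynomial of `Ad T(g)`, which is squarefree, kills `Ad V(g)` on the span of `V(d.ker)`; hence `u`
commutes with `d.ker` (`unip_comm`, `ad_restrict_semisimple`).  Elements with this property exist
(elements with a maximal number of eigenvalues), and the unipotent parts of any two of them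
are powers of one operator `w` (`glue`): if they have the same degree, they differ by a
unipotent element in the centre of the commutant of `V(d.ker)`, which is `1`.
-/

namespace Pool.Agent.Results.MP_b685ef_ag.EveryMember

open MPb685ZO MPb685TR

theorem result {K G V : Type} [Field K] [CharZero K] [Group G] [AddCommGroup V] [Module K V]
    [FiniteDimensional K V] (ρ : Representation K G V) (d : G →* Multiplicative ℤ)
    (hd : ∃ g, d g ≠ 1) (h0 : SSOn ρ (d.ker : Set G)) :
    ∃ (w : (Module.End K V)ˣ) (hw : ∀ g, Commute (w : Module.End K V) (ρ g)),
      IsNilpotent ((w : Module.End K V) - 1) ∧ SSOn (tw ρ d w hw) Set.univ ∧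
      (SSOn ρ Set.univ ↔ w = 1) ∧
      (MultFree ρ (d.ker : Set G) → w = 1) ∧
      -- the criterion
      (∀ g, dg d g ≠ 0 → (Module.End.IsSemisimple (tw ρ d w hw g) ↔ AdSS ρ d.ker g)) ∧
      (∀ g, dg d g ≠ 0 → (Module.End.IsSemisimple (ρ g) ↔ w = 1 ∧ AdSS ρ d.ker g)) ∧
      (∀ (g : G) (n : ℕ), dg d g = n → n ≠ 0 → AdSS ρ d.ker g →
        (∀ j : ℕ, Module.finrank K (LinearMap.range ((ρ g - tw ρ d w hw g) ^ j)) =
          Module.finrank K (LinearMap.range (((w : Module.End K V) - 1) ^ j))) ∧
        ∀ s' w' : Module.End K V, s'.IsSemisimple → IsNilpotent (w' - 1) → Commute w' (ρ g) →
          ρ g = s' * w' ^ n → w' = w) ∧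
      -- the transfer
      ∀ {T : Type} [AddCommGroup T] [Module K T] [FiniteDimensional K T]
        (τ : Representation K G T),
        (∀ S, Irr ρ (d.ker : Set G) S → Occurs ρ τ (d.ker : Set G) S) →
        ∀ g, Module.End.IsSemisimple (τ g) → Module.End.IsSemisimple (tw ρ d w hw g) :=
  transfer ρ d hd h0

end Pool.Agent.Results.MP_b685ef_ag.EveryMember
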