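import Pool.Agent.Lib.MP_b685ef_ag.ASE.Main

/-!
# The residues of the Frobenius eigenvalues of every ordinary exponential sum

Let `k = 𝔽_q`, `q = p^h`, let `K ⊆ ℤ^n` be a saturated monoid (for example the lattice points of the
cone of a polytope `Δ` containing `0`) with a homogeneous subadditive weight `e : K → ℕ` with finite
level sets (for example `D` times the weight function of `Δ`), and let `f` be a Laurent polynomial
over `k` with all exponents in `{u ∈ K : e(u) ≤ D}`.  There is no condition on `p`, `D`, `Δ`.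

From the leading form `g` (the terms of `f` of weight `D`) one forms the numbers
`c(u,v) = ∑_l ∏_x E_{l_x} g(x)^{l_x} ∈ k`, `u, v ∈ K`, the sum over all `l` with `∑_x l_x x = p u - v`
and `D ∑_x l_x = p e(u) - e(v)`, where `E_l` are the coefficients of the Artin-Hasse exponential
modulo `p` (`E_l = 1/l!` for `l < p`), the minors `d_m = det (c(u,v))_{e(u), e(v) < m}`, the Schur
complement `S_m` of `(c(u,v))_{e(u), e(v) < m}` in `(c(u,v))_{e(u), e(v) ≤ m}`, and
`N_m = S_m^{(p^{h-1})} ⋯ S_m^{(p)} S_m`.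

Theorem.
(1) `f` is ordinary up to the slope `M/D` (the numbers of zeros and poles of its `L`-function of norm
`|q|^{m/D}` are the Hodge numbers for `m ≤ M`) if and only if `d_m ≠ 0` for `m ≤ M + 1`.  So this
depends only on the leading form.
(2) If `d_m ≠ 0` for `m ≤ M`, then for every `m ≤ M` and every residue `v ≠ 0` the number of the
zeros and poles in the disc of `τ(v) ρ^{(p-1)mh}` (`ρ^D = ψ(1) - 1`, `τ` the Teichmüller lift) is
`N(m,v) = ∑_s (-1)^s binom(n,s) mult(v (-1)^{hs}, N_{m-Ds})`, up to the sign `(-1)^n`.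
So all the residues of the eigenvalues depend only on the leading form, they are the eigenvalues of
explicit matrices, and if one `f'` with the leading form of `f` is ordinary, then the eigenvalues for
`f` and for `f'` are pairwise congruent.
(3) Over any field of characteristic `0`: if `d_m ≠ 0` for `m ≤ D N₀` and the class numbers are at
most `b`, then all Jordan blocks of the Frobenius have size at most `b`; `b = 1`: the Frobenius is
semisimple with distinct eigenvalues.
(4) If the class numbers are at most `b` at all levels `m ≠ m₀`, the eigenvalues `x` of multiplicity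
`> b` (so the Jordan blocks of size `> b`) have `x^D = q^{m₀} · (unit)`; if `x` is pure, `x^D / q^{m₀}`
is a root of unity.
(2), (3) and (4) are proved for sums `∑_i a_i S(f_i)` over finite families (so for affine space, partial
tori and cones, which are unions of tori).

For a cohomology group or complex `V` with the traces of these sums `A` are the eigenvalues of the
Frobenius on the even part of `V`, `B` those on the odd part; no vanishing theorem is needed.
-/

set_option autoImplicit false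

open scoped BigOperators

namespace Pool.Agent.Results.MP_b685ef_ag.OrdinaryResidues

universe u v

/-- `K` is a saturated submonoid of `ℤ^n`, `e` is homogeneous and subadditive on `K` and has finite
level sets. -/
structure Weight {n : ℕ} (K : (Fin n → ℤ) → Prop) (e : (Fin n → ℤ) → ℕ) : Prop where
  zero_mem : K 0
  add_mem : ∀ u v, K u → K v → K (u + v)
  saturated : ∀ (m : ℕ) u, 1 ≤ m → K (m • u) → K u
  homogeneous : ∀ (m : ℕ) u, K u → e (m • u) = m * e u
  subadditive : ∀ u v, K u → K v → e (u + v) ≤ e u + e v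
  finite : ∀ L : ℕ, {u | K u ∧ e u ≤ L}.Finite

/-- The `E_l ∈ ℚ` are the coefficients of the Artin-Hasse exponential
`E = exp (t + t^p/p + t^{p^2}/p^2 + ...)`: `E_0 = 1`, `t E' = (t + t^p + t^{p^2} + ...) E`. -/
def IsArtinHasse (p : ℕ) (E : ℕ → ℚ) : Prop :=
  E 0 = 1 ∧ ∀ l : ℕ, 1 ≤ l → (l : ℚ) * E l =
    ∑ i ∈ Finset.range (l + 1), if p ^ i ≤ l then E (l - p ^ i) else 0

/-- The terms of weight `D`. -/
noncomputable def leadingForm {n : ℕ} {k : Type} [Field k] (D : ℕ) (e : (Fin n → ℤ) → ℕ)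
    (f : (Fin n → ℤ) →₀ k) : (Fin n → ℤ) →₀ k :=
  f.filter fun u => e u = D

open Classical in
/-- `c(u,v) = ∑_l ∏_x E_{l_x} g(x)^{l_x}`, the sum over all `l : supp g → ℕ` with
`∑_x l_x x = p u - v`, `D ∑_x l_x = p e(u) - e(v)`. -/
noncomputable def coefficient {n : ℕ} {k : Type} [Field k] (p D : ℕ) (e : (Fin n → ℤ) → ℕ)
    (E : ℕ → ℚ) (g : (Fin n → ℤ) →₀ k) (u v : Fin n → ℤ) : k :=
  if e v ≤ p * e u then
    ∑ l ∈ (Fintype.piFinset (fun _ : g.support => Finset.range (p * e u - e v + 1))).filter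
      (fun l => ∑ x, (l x : ℤ) • x.1 = p • u - v ∧ D * ∑ x, l x = p * e u - e v),
    ∏ x : g.support, ((E (l x) : ℚ) : k) * g x.1 ^ l x
  else 0

open Classical in
/-- The finite set of the `u ∈ K` with `Q(e(u))`. -/
noncomputable def levelSet {n : ℕ} (K : (Fin n → ℤ) → Prop) (e : (Fin n → ℤ) → ℕ)
    (Q : ℕ → Prop) : Finset (Fin n → ℤ) :=
  if h : {u | K u ∧ Q (e u)}.Finite then h.toFinset else ∅

/-- The matrix `(c(u,v))`, `u, v ∈ K`, `Q(e(u))`, `Q'(e(v))`. -/
noncomputable def block {n : ℕ} {k : Type} [Field k] (p D : ℕ) (K : (Fin n → ℤ) → Prop)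
    (e : (Fin n → ℤ) → ℕ) (E : ℕ → ℚ) (g : (Fin n → ℤ) →₀ k) (Q Q' : ℕ → Prop) :
    Matrix (levelSet K e Q) (levelSet K e Q') k :=
  Matrix.of fun u v => coefficient p D e E g u.1 v.1

/-- `d_m = det (c(u,v))_{e(u), e(v) < m}`. -/
noncomputable def minor {n : ℕ} {k : Type} [Field k] (p D : ℕ) (K : (Fin n → ℤ) → Prop)
    (e : (Fin n → ℤ) → ℕ) (E : ℕ → ℚ) (g : (Fin n → ℤ) →₀ k) (m : ℕ) : k :=
  (block p D K e E g (fun j => j < m) (fun j => j < m)).det

/-- The Schur complement `S_m` of `(c(u,v))_{e(u), e(v) < m}` in `(c(u,v))_{e(u), e(v) ≤ m}`. -/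
noncomputable def schur {n : ℕ} {k : Type} [Field k] (p D : ℕ) (K : (Fin n → ℤ) → Prop)
    (e : (Fin n → ℤ) → ℕ) (E : ℕ → ℚ) (g : (Fin n → ℤ) →₀ k) (m : ℕ) :
    Matrix (levelSet K e (fun j => j = m)) (levelSet K e (fun j => j = m)) k :=
  block p D K e E g (fun j => j = m) (fun j => j = m) -
    block p D K e E g (fun j => j = m) (fun j => j < m) *
      (block p D K e E g (fun j => j < m) (fun j => j < m))⁻¹ *
      block p D K e E g (fun j => j < m) (fun j => j = m)

/-- The product `M^{(p^{h-1})} ⋯ M^{(p)} M`, where `M^{(p^i)}` has the entries `(M u v)^{p^i}`. -/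
def frobProd (p : ℕ) {ι k : Type} [Fintype ι] [DecidableEq ι] [CommSemiring k]
    (M : Matrix ι ι k) : ℕ → Matrix ι ι k
  | 0 => 1
  | h + 1 => (M.map fun x => x ^ (p ^ h)) * frobProd p M h

/-- The multiplicity of `v` as an eigenvalue of `N_m = S_m^{(p^{h-1})} ⋯ S_m^{(p)} S_m`. -/
noncomputable def multiplicity {n : ℕ} {k : Type} [Field k] (p D h : ℕ)
    (K : (Fin n → ℤ) → Prop) (e : (Fin n → ℤ) → ℕ) (E : ℕ → ℚ) (g : (Fin n → ℤ) →₀ k) (m : ℕ)
    (v : AlgebraicClosure k) : ℕ :=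
  ((frobProd p (schur p D K e E g m) h).charpoly.map
    (algebraMap k (AlgebraicClosure k))).rootMultiplicity v

/-- `N(m,v) = ∑_s (-1)^s binom(n,s) mult(v (-1)^{hs}, N_{m-Ds})`. -/
noncomputable def classNumber {n : ℕ} {k : Type} [Field k] (p D h : ℕ)
    (K : (Fin n → ℤ) → Prop) (e : (Fin n → ℤ) → ℕ) (E : ℕ → ℚ) (g : (Fin n → ℤ) →₀ k) (m : ℕ)
    (v : AlgebraicClosure k) : ℤ :=
  ∑ s ∈ Finset.range (n + 1), (-1) ^ s * (n.choose s : ℤ) *
    (if D * s ≤ m then (multiplicity p D h K e E g (m - D * s) (v * (-1) ^ (h * s)) : ℤ) else 0)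

/-- The Hodge number `H(m) = ∑_s (-1)^s binom(n,s) #{u ∈ K : e(u) + D s = m}`. -/
noncomputable def hodgeNumber {n : ℕ} (D : ℕ) (K : (Fin n → ℤ) → Prop) (e : (Fin n → ℤ) → ℕ)
    (m : ℕ) : ℤ :=
  ∑ s ∈ Finset.range (n + 1), (-1) ^ s * (n.choose s : ℤ) *
    (Set.ncard {u : Fin n → ℤ | K u ∧ e u + D * s = m} : ℤ)

/-- The value of `f = ∑_u f(u) x^u` at a point of the torus. -/
noncomputable def laurentValue {n : ℕ} {k E : Type} [Field k] [Field E] [Algebra k E]
    (f : (Fin n → ℤ) →₀ k) (x : Fin n → Eˣ) : E :=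
  ∑ u ∈ f.support, algebraMap k E (f u) * ((∏ i, x i ^ u i : Eˣ) : E)

open Classical in
/-- The exponential sum `∑_{x ∈ (E^*)^n} ψ(Tr_{E/𝔽_p} f(x))`. -/
noncomputable def expSum {n : ℕ} {p : ℕ} [Fact p.Prime] {k : Type} [Field k] {F : Type*} [Field F]
    (ψ : AddChar (ZMod p) F) (f : (Fin n → ℤ) →₀ k)
    (E : Type) [Field E] [Fintype E] [Algebra (ZMod p) E] [Algebra k E] : F :=
  ∑ x : Fin n → Eˣ, ψ (Algebra.trace (ZMod p) E (laurentValue f x))

/-- The power sum `∑_{x ∈ A} x^j`. -/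
noncomputable def powerSum {F : Type*} [Field F] (A : Multiset F) (j : ℕ) : F :=
  (A.map fun x => x ^ j).sum

open Classical in
/-- The number of the elements `x` of `A` with `|x - z| < |z|`. -/
noncomputable def near {p : ℕ} [Fact p.Prime] (A : Multiset (PadicAlgCl p)) (z : PadicAlgCl p) :
    ℕ :=
  Multiset.countP (fun x => ‖x - z‖ < ‖z‖) A

/-- A Laurent polynomial `f` over `k` in `n` variables with exponents in `{u ∈ K : e(u) ≤ D}`. -/
structure Datum (k : Type) [Field k] (D : ℕ) where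
  n : ℕ
  K : (Fin n → ℤ) → Prop
  e : (Fin n → ℤ) → ℕ
  weight : Weight K e
  f : (Fin n → ℤ) →₀ k
  support : ∀ u ∈ f.support, K u ∧ e u ≤ D

/-- `d_m ≠ 0` for all `m ≤ M`, for the leading forms of all members of the family. -/
def MinorsNonzero {k : Type} [Field k] {D : ℕ} {I : Type} (p : ℕ) (E : ℕ → ℚ)
    (T : I → Datum k D) (M : ℕ) : Prop :=
  ∀ i, ∀ m, m ≤ M → minor p D (T i).K (T i).e E (leadingForm D (T i).e (T i).f) m ≠ 0

/-- `C(m,v) = ∑_i a_i (-1)^{n_i} N_i(m,v)`. -/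
noncomputable def classSum {k : Type} [Field k] {D : ℕ} {I : Type} [Fintype I] (p h : ℕ)
    (E : ℕ → ℚ) (T : I → Datum k D) (a : I → ℤ) (m : ℕ) (v : AlgebraicClosure k) : ℤ :=
  ∑ i, a i * ((-1) ^ (T i).n *
    classNumber p D h (T i).K (T i).e E (leadingForm D (T i).e (T i).f) m v)

/-- `t(j) = ∑_i a_i S(f_i; L)` for all finite fields `L` containing `k`, `j = [L : k]`. -/
def IsTrace {k : Type} [Field k] {D : ℕ} {I : Type} [Fintype I] {p : ℕ} [Fact p.Prime]
    [Algebra (ZMod p) k] {F : Type*} [Field F] (ψ : AddChar (ZMod p) F) (T : I → Datum k D)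
    (a : I → ℤ) (t : ℕ → F) : Prop :=
  ∀ (L : Type) [Field L] [Fintype L] [Algebra (ZMod p) L] [Algebra k L],
    t (Module.finrank k L) = ∑ i, (a i : F) * expSum ψ (T i).f L

/-- The trace of `φ^j`. -/
noncomputable def tracePower {F : Type*} [Field F] {W : Type*} [AddCommGroup W] [Module F W]
    (φ : W ≃ₗ[F] W) (j : ℕ) : F :=
  LinearMap.trace F W ((φ : W →ₗ[F] W) ^ j)

/-- The multiplicity of `x` as a root of the characteristic polynomial of `φ`. -/
noncomputable def eigenMult {F : Type*} [Field F] {W : Type*} [AddCommGroup W] [Module F W]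
    [FiniteDimensional F W] (φ : W ≃ₗ[F] W) (x : F) : ℕ :=
  (LinearMap.charpoly (φ : W →ₗ[F] W)).rootMultiplicity x

/-- The Jordan blocks of `φ` have size at most `b`: `(φ - x)^b` kills every generalized
eigenspace. -/
def BlocksLE {F : Type*} [Field F] {W : Type*} [AddCommGroup W] [Module F W]
    (φ : W ≃ₗ[F] W) (b : ℕ) : Prop :=
  ∀ x : F, Module.End.maxGenEigenspace (φ : W →ₗ[F] W) x =
    Module.End.genEigenspace (φ : W →ₗ[F] W) x b

open Classical in
/-- **Theorem.** (1) The criterion for ordinarity; (2) the residues of all eigenvalues; (3), (4) the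
consequences for the Jordan blocks over any field of characteristic `0`: (3) the class numbers bound
them; (4) if this fails at one level only, larger ones belong to units times `q^{m₀/D}`. -/
theorem result (p : ℕ) [Fact p.Prime] (D : ℕ) (hD : 1 ≤ D) (E : ℕ → ℚ) (hE : IsArtinHasse p E)
    (k : Type) [Field k] [Fintype k] [Algebra (ZMod p) k] (q h : ℕ) (hq : Fintype.card k = q)
    (hh : q = p ^ h) :
    -- (1)
    (∀ T : Datum k D, ∀ (ψ : AddChar (ZMod p) (PadicAlgCl p)), ψ ≠ 1 →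
      ∀ A B : Multiset (PadicAlgCl p),
      IsTrace ψ (fun _ : Unit => T) (fun _ => 1) (fun j => powerSum A j - powerSum B j) →
      ∀ M : ℕ, ((∀ m, m ≤ M →
          (Multiset.countP (fun x => ‖x‖ ^ D = ‖(q : PadicAlgCl p)‖ ^ m) A : ℤ) -
            Multiset.countP (fun x => ‖x‖ ^ D = ‖(q : PadicAlgCl p)‖ ^ m) B =
          (-1) ^ T.n * hodgeNumber D T.K T.e m) ↔
        MinorsNonzero p E (fun _ : Unit => T) (M + 1))) ∧
    ∀ (I : Type) [Fintype I] (T : I → Datum k D) (a : I → ℤ),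
    -- (2)
    (∀ (ψ : AddChar (ZMod p) (PadicAlgCl p)), ψ ≠ 1 → ∀ ρ : PadicAlgCl p, ρ ^ D = ψ 1 - 1 →
      ∀ τ : AlgebraicClosure k →*₀ PadicAlgCl p, (∀ a b, ‖τ (a + b) - (τ a + τ b)‖ < 1) →
      ∀ A B : Multiset (PadicAlgCl p),
      IsTrace ψ T a (fun j => powerSum A j - powerSum B j) →
      ∀ M : ℕ, MinorsNonzero p E T M →
      (∀ m, m ≤ M → ∀ v : AlgebraicClosure k, v ≠ 0 →
        (near A (τ v * ρ ^ ((p - 1) * m * h)) : ℤ) - near B (τ v * ρ ^ ((p - 1) * m * h)) =
        classSum p h E T a m v) ∧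
      (∀ z : PadicAlgCl p, z ≠ 0 → ‖ρ ^ ((p - 1) * M * h)‖ ≤ ‖z‖ →
        (∀ m, m ≤ M → ∀ v : AlgebraicClosure k, v ≠ 0 →
          ‖ρ ^ ((p - 1) * m * h)‖ ≤ ‖z - τ v * ρ ^ ((p - 1) * m * h)‖) →
        near A z = near B z)) ∧
    -- (3), (4)
    (∀ N₀ : ℕ, MinorsNonzero p E T (D * N₀) → ∀ b : ℕ,
      ∀ (F : Type u) [Field F] [IsAlgClosed F] [CharZero F] (ψ : AddChar (ZMod p) F), ψ ≠ 1 →
      ∀ (W : Type v) [AddCommGroup W] [Module F W] [FiniteDimensional F W] (φ : W ≃ₗ[F] W),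
      IsTrace ψ T a (tracePower φ) →
      (∀ x : F, 0 < eigenMult φ x → IsIntegral ℤ ((q : F) ^ N₀ * x⁻¹)) →
      -- (3)
      ((∀ m, m ≤ D * N₀ → ∀ v : AlgebraicClosure k, v ≠ 0 → classSum p h E T a m v ≤ b) →
        (∀ x : F, eigenMult φ x ≤ b) ∧ BlocksLE φ b ∧
        (b = 1 → Module.End.IsSemisimple (φ : W →ₗ[F] W))) ∧
      -- (4)
      (∀ m₀ : ℕ, m₀ ≤ D * N₀ →
        (∀ m, m ≤ D * N₀ → m ≠ m₀ → ∀ v : AlgebraicClosure k, v ≠ 0 →
          classSum p h E T a m v ≤ b) →
        ∀ x : F, b < eigenMult φ x →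
          IsIntegral ℤ (x ^ D / (q : F) ^ m₀) ∧ IsIntegral ℤ ((q : F) ^ m₀ / x ^ D))) := by
  subst hq
  have hfr : h = Module.finrank (ZMod p) k := by
    have h1 : Fintype.card k = p ^ Module.finrank (ZMod p) k := by
      rw [Module.card_eq_pow_finrank (K := ZMod p) (V := k), ZMod.card]
    rw [hh] at h1
    exact Nat.pow_right_injective (Fact.out : p.Prime).two_le h1
  clear hh
  subst hfr
  have hW : ∀ {n : ℕ} {K : (Fin n → ℤ) → Prop} {e : (Fin n → ℤ) → ℕ}, Weight K e → ASE.Wgt K e :=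
    fun h => ⟨h.zero_mem, h.add_mem, h.saturated, h.homogeneous, h.subadditive, h.finite⟩
  have hfp : ∀ {ι k' : Type} [Fintype ι] [DecidableEq ι] [CommSemiring k'] (M : Matrix ι ι k')
      (h : ℕ), frobProd p M h = ASur.Fprod p M h := by
    intro ι k' _ _ _ M h
    induction h with
    | zero => rfl
    | succ h ih => simp only [frobProd, ASur.Fprod, ih]
  have hc : ∀ {n : ℕ} {K : (Fin n → ℤ) → Prop} {e : (Fin n → ℤ) → ℕ} {f : (Fin n → ℤ) →₀ k},
      (∀ u ∈ f.support, K u ∧ e u ≤ D) → ∀ u v,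
      coefficient p D e E (leadingForm D e f) u v = ASE.cH p D e E f u v := by
    intro n K e f hf u v
    exact ASE.cH_leading p D K e E hE.1 f hf u v
  have hb : ∀ {n : ℕ} {K : (Fin n → ℤ) → Prop} {e : (Fin n → ℤ) → ℕ} {f : (Fin n → ℤ) →₀ k},
      (∀ u ∈ f.support, K u ∧ e u ≤ D) → ∀ Q Q' : ℕ → Prop,
      block p D K e E (leadingForm D e f) Q Q' = ASE.bH p D K e E f Q Q' := by
    intro n K e f hf Q Q'
    refine Matrix.ext fun u v => ?_
    exact hc hf u.1 v.1
  have hm : ∀ {n : ℕ} {K : (Fin n → ℤ) → Prop} {e : (Fin n → ℤ) → ℕ} {f : (Fin n → ℤ) →₀ k},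
      (∀ u ∈ f.support, K u ∧ e u ≤ D) → ∀ m,
      minor p D K e E (leadingForm D e f) m = ASE.dH p D K e E f m := by
    intro n K e f hf m
    unfold minor ASE.dH
    rw [hb hf]
    rfl
  have hn : ∀ {n : ℕ} {K : (Fin n → ℤ) → Prop} {e : (Fin n → ℤ) → ℕ} {f : (Fin n → ℤ) →₀ k},
      (∀ u ∈ f.support, K u ∧ e u ≤ D) → ∀ h m v,
      classNumber p D h K e E (leadingForm D e f) m v =
        ASE.NH (algebraMap k (AlgebraicClosure k)) p D h K e E f m v := by
    intro n K e f hf h m v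
    unfold classNumber ASE.NH
    refine Finset.sum_congr rfl fun s _ => ?_
    unfold multiplicity ASE.muH ASE.NmH schur ASE.sH
    rw [hfp, hb hf, hb hf, hb hf, hb hf]
    rfl
  have hp : ‖((p : ℕ) : PadicAlgCl p)‖ < 1 := by
    have h2 := PadicAlgCl.norm_extends p (p : ℚ_[p])
    have h3 : ‖(p : PadicAlgCl p)‖ = ‖(p : ℚ_[p])‖ := by
      rw [← h2]
      congr 1
    rw [h3]
    exact Padic.norm_p_lt_one
  let j : ℤ_[p] →+* PadicAlgCl p :=
    (algebraMap ℚ_[p] (PadicAlgCl p)).comp PadicInt.Coe.ringHom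
  have hj : ∀ x, ‖j x‖ ≤ 1 := by
    intro x
    have h2 := PadicAlgCl.norm_extends p (x : ℚ_[p])
    exact h2.trans_le x.norm_le_one
  refine ⟨?_, ?_⟩
  · intro T ψ hψ A B hAB M
    have h1 := ASE.main_EQUIVF p D hD (PadicAlgCl p) hp j hj E hE k T.n T.K T.e (hW T.weight) T.f
      T.support ψ hψ A B (by
        intro L _ _ _ _
        have h2 := hAB L
        simp only [Finset.univ_unique, Finset.sum_singleton, Int.cast_one, one_mul] at h2
        exact h2) M
    refine Iff.trans h1 ⟨fun h i m hm' => ?_, fun h m hm' => ?_⟩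
    · show minor p D T.K T.e E (leadingForm D T.e T.f) m ≠ 0
      rw [hm T.support]
      exact h m hm'
    · have h3 : minor p D T.K T.e E (leadingForm D T.e T.f) m ≠ 0 := h () m hm'
      rwa [hm T.support] at h3
  · intro I _ T a
    have hd : ∀ {M : ℕ}, MinorsNonzero p E T M → ∀ i, ∀ m, m ≤ M →
        ASE.dH p D (T i).K (T i).e E (T i).f m ≠ 0 := by
      intro M h i m hm'
      have h3 := h i m hm'
      rwa [hm (T i).support] at h3
    have hcs : ∀ h m v, classSum p h E T a m v = ∑ i, a i * ((-1) ^ (T i).n *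
        ASE.NH (algebraMap k (AlgebraicClosure k)) p D h (T i).K (T i).e E (T i).f m v) := by
      intro h m v
      unfold classSum
      refine Finset.sum_congr rfl fun i _ => ?_
      rw [hn (T i).support]
    refine ⟨?_, ?_⟩
    · intro ψ hψ ρ hρ τ hτ A B hAB M hM
      obtain ⟨h1, h2⟩ := ASE.main_RESF p D hD (PadicAlgCl p) hp j hj E hE k I (fun i => (T i).n)
        (fun i => (T i).K) (fun i => (T i).e) (fun i => (T i).f) a
        (fun i => hW (T i).weight) (fun i => (T i).support) ψ hψ ρ hρ τ hτ A B hAB M (hd hM)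
      refine ⟨fun m hm' v hv => ?_, fun z hz hzM hoff => ?_⟩
      · rw [hcs]
        exact h1 m hm' v hv
      · have h3 := h2 z hz hzM hoff
        have h4 : (ASE.dc A z : ℤ) = ASE.dc B z := by omega
        exact_mod_cast h4
    · intro N₀ hM b F _ _ _ ψ hψ W _ _ _ φ hT hI0
      have hI : ∀ x ∈ (LinearMap.charpoly (φ : W →ₗ[F] W)).roots,
          IsIntegral ℤ ((Fintype.card k : F) ^ N₀ * x⁻¹) := by
        intro x hx
        refine hI0 x ?_
        unfold eigenMult
        rw [← Polynomial.count_roots]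
        exact Multiset.count_pos.2 hx
      refine ⟨fun hb' => ?_, fun m₀ hm₀ hb' => ?_⟩
      · obtain ⟨r1, r2, r3⟩ := ASE.main_FINH.{u, v} p D hD E hE k I (fun i => (T i).n)
          (fun i => (T i).K) (fun i => (T i).e) (fun i => (T i).f) a
          (fun i => hW (T i).weight) (fun i => (T i).support) N₀ (hd hM) b
          (fun m hm' v hv => by rw [← hcs]; exact hb' m hm' v hv) F ψ hψ W φ hT hI
        exact ⟨r1, r2, fun h1 => (r3 h1).2⟩
      · exact ASE.main_FINP.{u, v} p D hD E hE k I (fun i => (T i).n)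
          (fun i => (T i).K) (fun i => (T i).e) (fun i => (T i).f) a
          (fun i => hW (T i).weight) (fun i => (T i).support) N₀ (hd hM) b m₀ hm₀
          (fun m hm' hmm v hv => by rw [← hcs]; exact hb' m hm' hmm v hv) F ψ hψ W φ hT hI

end Pool.Agent.Results.MP_b685ef_ag.OrdinaryResidues
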